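import Pool.Agent.W2helper61.PF.Stm

set_option autoImplicit false

/-! The correctness of a proof depends on few strings of the oracle. -/

namespace Pool.Agent.W2helper88.PF

open Pool.Agent.NPC Pool.Agent.H622R2 Pool.Agent.H620R2.Gauge Pool.Agent.W2helper61.RF
open Pool.Agent.W2helper61.PF Pool.Agent.W2helper61

theorem ev_mono (p : Polynomial ℕ) {a b : ℕ} (h : a ≤ b) : p.eval a ≤ p.eval b := by
  induction p using Polynomial.induction_on' with
  | add p q hp hq =>
    rw [Polynomial.eval_add, Polynomial.eval_add]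
    exact Nat.add_le_add hp hq
  | monomial n c =>
    rw [Polynomial.eval_monomial, Polynomial.eval_monomial]
    exact Nat.mul_le_mul_left _ (Nat.pow_le_pow_left h n)

theorem run_set (M : Alg) (O : Oracle) (x : List Bool) : ∀ (n : ℕ) (a : List Bool),
    ∃ Q : Finset (List Bool), Q.card ≤ n ∧ ∀ O' : Oracle, (∀ u ∈ Q, O' u = O u) →
      M.run O' x n a = M.run O x n a := by
  classical
  intro n
  induction n with
  | zero => exact fun a => ⟨∅, by simp, fun O' _ => rfl⟩
  | succ n ih =>
    intro a
    rcases hD : M.D (pairBits x a) with _ | ⟨b, q⟩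
    · refine ⟨∅, by simp, fun O' _ => ?_⟩
      simp only [Alg.run, hD]
    · cases b with
      | true =>
        refine ⟨∅, by simp, fun O' _ => ?_⟩
        simp only [Alg.run, hD]
      | false =>
        obtain ⟨Q, hQ, hQ'⟩ := ih (a ++ [O q])
        refine ⟨insert q Q, (Finset.card_insert_le _ _).trans (by omega), fun O' h => ?_⟩
        simp only [Alg.run, hD]
        rw [h q (Finset.mem_insert_self _ _)]
        exact hQ' O' fun u hu => h u (Finset.mem_insert_of_mem hu)

theorem acc_set (M : Alg) : ∃ qb : Polynomial ℕ, ∀ (O : Oracle) (x : List Bool),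
    ∃ Q : Finset (List Bool), Q.card ≤ M.p.eval x.length ∧
      (∀ u ∈ Q, u.length ≤ qb.eval x.length) ∧
      ∀ O' : Oracle, (∀ u ∈ Q, O' u = O u) → LH.acc M O' x = LH.acc M O x := by
  classical
  obtain ⟨qb, hqb⟩ := LH.acc_congr M
  refine ⟨qb, fun O x => ?_⟩
  obtain ⟨Q, hQ, hQ'⟩ := run_set M O x (M.p.eval x.length) []
  refine ⟨Q.filter fun u => u.length ≤ qb.eval x.length,
    (Finset.card_filter_le _ _).trans hQ, fun u hu => (Finset.mem_filter.mp hu).2,
    fun O' h => ?_⟩
  have h1 : LH.acc M O' x =
      LH.acc M (fun u => if u.length ≤ qb.eval x.length then O' u else O u) x := by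
    apply hqb
    intro q hq
    simp only [if_pos hq]
  have h2 : M.run (fun u => if u.length ≤ qb.eval x.length then O' u else O u) x
      (M.p.eval x.length) [] = M.run O x (M.p.eval x.length) [] := by
    apply hQ'
    intro u hu
    by_cases hl : u.length ≤ qb.eval x.length
    · simp only [if_pos hl]
      exact h u (Finset.mem_filter.mpr ⟨hu, hl⟩)
    · simp only [if_neg hl]
  rw [h1]
  unfold LH.acc Alg.out
  rw [h2]

theorem length_flat (l : List Bool) : l.length ≤ (l.flatMap RF.pre).length := by
  induction l with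
  | nil => simp
  | cons b l ih =>
    rw [List.flatMap_cons, List.length_append, List.length_cons]
    have : 1 ≤ (RF.pre b).length := by cases b <;> simp [RF.pre]
    omega

theorem str_le_num (n : ℕ) : (str n).length ≤ (num n).enc.length := by
  have h1 := length_str_le n
  have h2 := length_flat n.bits
  have h3 : n.bits.length = n.size := Nat.size_eq_bits_len n
  rw [enc_num, List.length_append]
  omega

theorem base_set (O : Oracle) (φ : Fm) (h : Base O φ) :
    ∃ Q : Finset (List Bool), Q.card ≤ 1 ∧ (∀ u ∈ Q, u.length ≤ φ.enc.length) ∧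
      ∀ O' : Oracle, (∀ u ∈ Q, O' u = O u) → Base O' φ := by
  classical
  induction h with
  | basic φ h => exact ⟨∅, by simp, by simp, fun O' _ => Base.basic φ h⟩
  | pind φ h => exact ⟨∅, by simp, by simp, fun O' _ => Base.pind φ h⟩
  | pos n h =>
    refine ⟨{str n}, by simp, ?_, fun O' h' => Base.pos n ?_⟩
    · intro u hu
      rw [Finset.mem_singleton] at hu
      subst hu
      have := str_le_num n
      simp only [Fm.enc, List.length_cons]
      omega
    · rw [h' _ (Finset.mem_singleton_self _)]; exact h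
  | neg n h =>
    refine ⟨{str n}, by simp, ?_, fun O' h' => Base.neg n ?_⟩
    · intro u hu
      rw [Finset.mem_singleton] at hu
      subst hu
      have := str_le_num n
      simp only [Fm.enc, List.length_cons, List.length_append]
      omega
    · rw [h' _ (Finset.mem_singleton_self _)]; exact h
  | gen φ _ ih =>
    obtain ⟨Q, h1, h2, h3⟩ := ih
    refine ⟨Q, h1, fun u hu => ?_, fun O' h' => Base.gen φ (h3 O' h')⟩
    have := h2 u hu
    simp only [Fm.enc, List.length_cons]
    omega

theorem length_le_encPf (π : List Fm) : π.length ≤ (encPf π).length := by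
  induction π with
  | nil => simp
  | cons φ π ih =>
    simp only [encPf, List.length_cons, List.length_append]
    omega

theorem prf_set (M : Alg) (qb : Polynomial ℕ) (hqb : ∀ (O : Oracle) (x : List Bool),
    ∃ Q : Finset (List Bool), Q.card ≤ M.p.eval x.length ∧
      (∀ u ∈ Q, u.length ≤ qb.eval x.length) ∧
      ∀ O' : Oracle, (∀ u ∈ Q, O' u = O u) → LH.acc M O' x = LH.acc M O x)
    (O : Oracle) (π : List Fm) (h : Prf O (Th M O) π) : ∀ N : ℕ, (encPf π).length ≤ N →
    ∃ Q : Finset (List Bool), Q.card ≤ π.length * (M.p.eval N + 1) ∧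
      (∀ u ∈ Q, u.length ≤ qb.eval N + N) ∧
      ∀ O' : Oracle, (∀ u ∈ Q, O' u = O u) → Prf O' (Th M O') π := by
  classical
  induction h with
  | nil => exact fun N _ => ⟨∅, by simp, by simp, fun O' _ => Prf.nil⟩
  | ax φ π _ hφ ih =>
    intro N hN
    simp only [encPf, List.length_cons, List.length_append] at hN
    obtain ⟨Q, h1, h2, h3⟩ := ih N (by omega)
    have hφN : φ.enc.length ≤ N := by omega
    have key : ∃ Q₁ : Finset (List Bool), Q₁.card ≤ M.p.eval N + 1 ∧
        (∀ u ∈ Q₁, u.length ≤ qb.eval N + N) ∧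
        ∀ O' : Oracle, (∀ u ∈ Q₁, O' u = O u) → LAx φ ∨ Base O' φ ∨ φ ∈ Th M O' := by
      rcases hφ with hL | hB | hT
      · exact ⟨∅, by simp, by simp, fun O' _ => Or.inl hL⟩
      · obtain ⟨Q₁, g1, g2, g3⟩ := base_set O φ hB
        exact ⟨Q₁, by omega, fun u hu => by have := g2 u hu; omega,
          fun O' h' => Or.inr (Or.inl (g3 O' h'))⟩
      · obtain ⟨Q₁, g1, g2, g3⟩ := hqb O φ.enc
        refine ⟨Q₁, ?_, fun u hu => ?_, fun O' h' => Or.inr (Or.inr ?_)⟩
        · have := ev_mono M.p hφN
          omega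
        · have := g2 u hu
          have := ev_mono qb hφN
          omega
        · show LH.acc M O' φ.enc = [true]
          rw [g3 O' h']
          exact hT
    obtain ⟨Q₁, g1, g2, g3⟩ := key
    refine ⟨Q ∪ Q₁, ?_, ?_, fun O' h' => ?_⟩
    · have := Finset.card_union_le Q Q₁
      rw [List.length_cons, Nat.add_mul, Nat.one_mul]
      omega
    · intro u hu
      rcases Finset.mem_union.mp hu with hu | hu
      · exact h2 u hu
      · exact g2 u hu
    · exact Prf.ax φ π (h3 O' fun u hu => h' u (Finset.mem_union_left _ hu))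
        (g3 O' fun u hu => h' u (Finset.mem_union_right _ hu))
  | mp φ ψ π _ hm1 hm2 ih =>
    intro N hN
    simp only [encPf, List.length_cons, List.length_append] at hN
    obtain ⟨Q, h1, h2, h3⟩ := ih N (by omega)
    refine ⟨Q, ?_, h2, fun O' h' => Prf.mp φ ψ π (h3 O' h') hm1 hm2⟩
    rw [List.length_cons, Nat.add_mul]
    omega

theorem TCH_ok : P_TCH := by
  intro M
  obtain ⟨qb, hqb⟩ := acc_set M
  refine ⟨Polynomial.X * (M.p + 1) + (qb + Polynomial.X), fun O φ π h => ?_⟩
  obtain ⟨Q, h1, h2, h3⟩ := prf_set M qb hqb O π h.1 (encPf π).length le_rfl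
  have e : (Polynomial.X * (M.p + 1) + (qb + Polynomial.X)).eval (encPf π).length =
      (encPf π).length * (M.p.eval (encPf π).length + 1) +
        (qb.eval (encPf π).length + (encPf π).length) := by
    simp
  rw [e]
  have hl := length_le_encPf π
  refine ⟨Q, ?_, fun u hu => ?_, fun O' h' => ⟨h3 O' h', h.2⟩⟩
  · have := Nat.mul_le_mul_right (M.p.eval (encPf π).length + 1) hl
    omega
  · have := h2 u hu
    omega

end Pool.Agent.W2helper88.PF
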